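import Pool.Agent.MP_75da70_an.H72.PMod
import Pool.Agent.MP_75da70_an.H88.Fibre

/-
Compatible retractions of the fibres glue to a continuous module retraction.
-/

namespace Pool.Agent.MP_75da70_an.H8

open Filter Topology Set H7

variable {Ω : Type} [TopologicalSpace Ω]

omit [TopologicalSpace Ω] in
theorem lemD_fin {W : Ω → Set Ω} {N : ℕ} (h : OrdLe W N) (x : Ω) : {q | x ∈ W q}.Finite := by
  by_contra hc
  obtain ⟨S, hS, hc⟩ := Set.Infinite.exists_subset_card_eq hc (N + 1)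
  have := h x S fun q hq => hS hq
  omega

theorem HasB.exists_PS [CompactSpace Ω] [T2Space Ω] [TotallyDisconnectedSpace Ω]
    {U : Ω → Set Ω} {rk : Ω → ℕ} {H : ℕ} (h : RS U rk H) (hB : HasB U) :
    Nonempty (PS Ω) := by
  obtain ⟨W, N, hW, hN⟩ := hB
  have hsub : ∀ x, (⋂ q ∈ {q | x ∈ W q}, W q) ⊆ W x := fun x =>
    biInter_subset_of_mem (s := {q | x ∈ W q}) (hW x).2.1
  refine ⟨⟨fun x => ⋂ q ∈ {q | x ∈ W q}, W q, rk, H, N, ⟨fun x => ?_, fun x => ?_,
    fun x y hy hne => h.lt x y ((hW x).2.2 (hsub x hy)) hne, h.bd⟩, fun x y hy => ?_,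
    fun y T hT => hN y T fun x hx => hsub x (hT x hx)⟩⟩
  · exact (lemD_fin hN x).isClopen_biInter fun q _ => (hW q).1
  · exact mem_iInter₂.mpr fun q hq => hq
  · intro z hz
    exact mem_iInter₂.mpr fun q hq => mem_iInter₂.mp hz q (mem_iInter₂.mp hy q hq)

namespace PS

variable (P : PS Ω) {W : Ω → Set Ω}

theorem Shr.ordLe {P : PS Ω} (hW : P.Shr W) : OrdLe W P.N := fun y T hT =>
  P.ord y T fun x hx => (hW x).2.2 (hT x hx)

/-- the points whose small neighbourhood contains `x`. -/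
noncomputable def Shr.up {P : PS Ω} (hW : P.Shr W) (x : Ω) : Finset Ω :=
  (lemD_fin hW.ordLe x).toFinset

theorem Shr.mem_up {P : PS Ω} (hW : P.Shr W) {x q : Ω} : q ∈ hW.up x ↔ x ∈ W q := by
  simp [Shr.up]

theorem Shr.card_up {P : PS Ω} (hW : P.Shr W) (x : Ω) : (hW.up x).card ≤ P.N :=
  hW.ordLe x _ fun _ hq => hW.mem_up.mp hq

omit [TopologicalSpace Ω] in
theorem lemD_lc_mem {S : Submodule ℂ (FL Ω)} {m : List Ω → FL Ω} (hm : ∀ c, m c ∈ S)
    (ζ : FL Ω) : Finsupp.linearCombination ℂ m ζ ∈ S := by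
  rw [Finsupp.linearCombination_apply]
  exact Submodule.sum_mem _ fun c _ => Submodule.smul_mem _ _ (hm c)

theorem lemD_supp {B : Set Ω} {k : ℕ} {x : Ω} {ζ : FL Ω} (hζ : ζ ∈ Zf P.le B k x) {c : List Ω}
    (hc : c ∈ ζ.support) : c ∈ Sx P.le B k x :=
  ((Finsupp.mem_supported ℂ ζ).mp hζ.1 hc).1

open Classical in
/-- one step of the recursion. -/
noncomputable def lemD_step (B : Set Ω) (k : ℕ) (hW : P.Shr W) (ℓ m : Ω → List Ω → FL Ω) :
    Ω → List Ω → FL Ω := fun x c =>
  if c ∈ Sx P.le B k x then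
    ℓ x c - ∑ q ∈ (hW.up x).erase x, Finsupp.linearCombination ℂ (m q) (ℓ x c) else 0

open Classical in
theorem lemD_exists (B : Set Ω) (k : ℕ) (hW : P.Shr W)
    (ℓ : Ω → List Ω → FL Ω) (C : ℝ) (hℓ : ∀ x, Good P.le B k x {q | x ∈ W q} (ℓ x))
    (hC : ∀ x c c', ‖ℓ x c c'‖ ≤ C) :
    ∃ (μ : Ω → List Ω → FL Ω) (M : ℝ), 0 ≤ M ∧ (∀ x c, μ x c ∈ Zf P.le B k x) ∧
      (∀ x c c', ‖μ x c c'‖ ≤ M) ∧ P.lemD_step B k hW ℓ μ = μ := by
  set F := P.lemD_step B k hW ℓ with hF
  have hstab : ∀ n x, P.H ≤ P.rk x + n → F^[n + 1] 0 x = F^[n] 0 x := by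
    intro n
    induction n with
    | zero => intro x hx; have := P.rs.bd x; omega
    | succ n ih =>
      intro x hx
      rw [Function.iterate_succ_apply' F (n + 1), Function.iterate_succ_apply' F n]
      funext c
      simp only [hF, lemD_step]
      split_ifs with hc
      · congr 1
        refine Finset.sum_congr rfl fun q hq => ?_
        obtain ⟨hne, hq⟩ := Finset.mem_erase.mp hq
        have := P.rs.lt q x ((hW q).2.2 (hW.mem_up.mp hq)) hne.symm
        rw [← hF, ← Function.iterate_succ_apply' F n, ih q (by omega)]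
      · rfl
  have hmem : ∀ n, ∀ x c, F^[n] 0 x c ∈ Zf P.le B k x := by
    intro n
    induction n with
    | zero => intro x c; exact Submodule.zero_mem _
    | succ n ih =>
      intro x c
      rw [Function.iterate_succ_apply' F n]
      simp only [hF, lemD_step]
      split_ifs with hc
      · refine Submodule.sub_mem _ ((hℓ x).mem c hc) (Submodule.sum_mem _ fun q hq => ?_)
        have hq' := (hW q).2.2 (hW.mem_up.mp (Finset.mem_erase.mp hq).2)
        exact Zf_mono P.pord hq' (lemD_lc_mem (ih q) _)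
      · exact Submodule.zero_mem _
  have hbd : ∀ n, ∃ M : ℝ, 0 ≤ M ∧ ∀ x c c', ‖F^[n] 0 x c c'‖ ≤ M := by
    intro n
    induction n with
    | zero => exact ⟨0, le_rfl, fun x c c' => by simp⟩
    | succ n ih =>
      obtain ⟨M, hM0, hM⟩ := ih
      refine ⟨|C| + P.N * ((P.N ^ (k + 1) : ℕ) * (|C| * M)), by positivity, fun x c c' => ?_⟩
      rw [Function.iterate_succ_apply' F n]
      simp only [hF, lemD_step]
      split_ifs with hc
      · rw [Finsupp.sub_apply, Finsupp.finsetSum_apply]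
        refine (norm_sub_le _ _).trans (add_le_add ((hC x c c').trans (le_abs_self C)) ?_)
        refine (norm_sum_le _ _).trans ?_
        refine (Finset.sum_le_card_nsmul _ _ ((P.N ^ (k + 1) : ℕ) * (|C| * M)) fun q _ => ?_).trans ?_
        · rw [Finsupp.linearCombination_apply, Finsupp.sum, Finsupp.finsetSum_apply]
          refine (norm_sum_le _ _).trans ?_
          refine (Finset.sum_le_card_nsmul _ _ (|C| * M) fun d _ => ?_).trans ?_
          · rw [Finsupp.smul_apply, norm_smul]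
            exact mul_le_mul ((hC x c d).trans (le_abs_self C)) (hM q d c') (norm_nonneg _)
              (abs_nonneg C)
          · rw [nsmul_eq_mul]
            refine mul_le_mul_of_nonneg_right ?_ (by positivity)
            exact_mod_cast card_Sx P.pord k x _ fun d hd => P.lemD_supp ((hℓ x).mem c hc) hd
        · rw [nsmul_eq_mul]
          refine mul_le_mul_of_nonneg_right ?_ (by positivity)
          exact_mod_cast (Finset.card_erase_le).trans (hW.card_up x)
      · simp only [Finsupp.coe_zero, Pi.zero_apply, norm_zero]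
        positivity
  obtain ⟨M, hM0, hM⟩ := hbd P.H
  refine ⟨F^[P.H] 0, M, hM0, hmem P.H, hM, ?_⟩
  funext x
  rw [← Function.iterate_succ_apply' F P.H]
  exact hstab P.H x (by omega)

section Fix

variable {P} {B : Set Ω} {k : ℕ} (hW : P.Shr W) {ℓ μ : Ω → List Ω → FL Ω}
  (hℓ : ∀ x, Good P.le B k x {q | x ∈ W q} (ℓ x)) (hμ : P.lemD_step B k hW ℓ μ = μ)

include hμ in
theorem lemD_zero {x : Ω} {c : List Ω} (hc : c ∉ Sx P.le B k x) : μ x c = 0 := by
  rw [← hμ]
  simp only [lemD_step, hc, if_false]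

open Classical in
include hμ in
theorem lemD_eq {x : Ω} {c : List Ω} (hc : c ∈ Sx P.le B k x) :
    μ x c = ℓ x c - ∑ q ∈ (hW.up x).erase x, Finsupp.linearCombination ℂ (μ q) (ℓ x c) := by
  conv_lhs => rw [← hμ]
  simp only [lemD_step, hc, if_true]

include hℓ hμ in
theorem lemD_id {x : Ω} {ζ : FL Ω} (hζ : ζ ∈ Zf P.le B k x) :
    ∑ q ∈ hW.up x, Finsupp.linearCombination ℂ (μ q) ζ = ζ := by
  classical
  rw [← Finset.add_sum_erase _ _ (hW.mem_up.mpr (hW x).2.1)]
  have h1 : Finsupp.linearCombination ℂ (μ x) ζ =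
      Finsupp.linearCombination ℂ (ℓ x) ζ - ∑ q ∈ (hW.up x).erase x,
        Finsupp.linearCombination ℂ (μ q) (Finsupp.linearCombination ℂ (ℓ x) ζ) := by
    rw [Finsupp.linearCombination_apply ℂ (v := μ x), Finsupp.linearCombination_apply ℂ (v := ℓ x)]
    simp only [Finsupp.sum, map_sum, map_smul]
    rw [Finset.sum_comm, ← Finset.sum_sub_distrib]
    refine Finset.sum_congr rfl fun c hc => ?_
    rw [lemD_eq hW hμ (P.lemD_supp hζ hc), smul_sub, Finset.smul_sum]
  rw [h1, (hℓ x).ret ζ hζ, sub_add_cancel]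

variable [CompactSpace Ω] [T2Space Ω] [TotallyDisconnectedSpace Ω]

include hℓ hμ in
theorem lemD_level (n : ℕ) : ∀ i, P.H ≤ i + n → ∀ c, {x | P.rk x = i ∧ μ x c ≠ 0}.Finite := by
  classical
  induction n with
  | zero =>
    intro i hi c
    refine Set.finite_empty.subset fun x hx => ?_
    have := P.rs.bd x
    have := hx.1
    omega
  | succ n ih =>
    intro i hi c
    by_contra hinf
    obtain ⟨q₀, hq₀⟩ := Set.Infinite.exists_accPt_principal hinf
    have hcl : c ∈ Sx P.le B k q₀ := by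
      have h1 : q₀ ∈ closure {x | P.rk x = i ∧ μ x c ≠ 0} :=
        mem_closure_iff_clusterPt.mpr hq₀.clusterPt
      have h2 : {x | P.rk x = i ∧ μ x c ≠ 0} ⊆ P.Uc B k c := fun x hx => by
        by_contra hc
        exact hx.2 (lemD_zero hW hμ hc)
      exact ((P.cf B k).clopen c).isClosed.closure_subset_iff.mpr h2 h1
    have hbad : {q | i < P.rk q ∧ ∃ d ∈ Sx P.le B k q₀, μ q d ≠ 0}.Finite := by
      refine ((Set.finite_Ioo i P.H).biUnion fun j hj => (P.finite_Sx B k q₀).biUnion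
        fun d _ => ih j (by have := hj.1; omega) d).subset ?_
      rintro q ⟨h1, d, hd, h2⟩
      exact mem_iUnion₂.mpr ⟨P.rk q, ⟨h1, P.rs.bd q⟩, mem_iUnion₂.mpr ⟨d, hd, rfl, h2⟩⟩
    have e1 : ∀ᶠ x in 𝓝 q₀, ∀ q ∈ {q | P.le q q₀}, (x ∈ W q ↔ q₀ ∈ W q) := by
      refine (P.finite_below q₀).eventually_all.mpr fun q _ => ?_
      by_cases h : q₀ ∈ W q
      · filter_upwards [(hW q).1.isOpen.mem_nhds h] with x hx
        exact ⟨fun _ => h, fun _ => hx⟩
      · filter_upwards [(hW q).1.compl.isOpen.mem_nhds h] with x hx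
        exact ⟨fun h' => (hx h').elim, fun h' => (h h').elim⟩
    have e2 : ∀ᶠ x in 𝓝 q₀, ∀ q ∈ {q | i < P.rk q ∧ ∃ d ∈ Sx P.le B k q₀, μ q d ≠ 0},
        (x ∈ P.V q → q₀ ∈ P.V q) := by
      refine hbad.eventually_all.mpr fun q _ => ?_
      by_cases h : q₀ ∈ P.V q
      · exact Eventually.of_forall fun _ _ => h
      · filter_upwards [(P.rs.clopen q).compl.isOpen.mem_nhds h] with x hx
        exact fun h' => (hx h').elim
    obtain ⟨x, ⟨hne, hrk, hx0⟩, h1, h2⟩ :=
      ((accPt_iff_frequently.mp hq₀).and_eventually (e1.and e2)).exists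
    have hxW : x ∈ W q₀ := (h1 q₀ (P.rs.self q₀)).mpr (hW q₀).2.1
    have hle : P.le q₀ x := (hW q₀).2.2 hxW
    have hcx : c ∈ Sx P.le B k x := Sx_mono P.pord hle hcl
    have hζ : ℓ x c ∈ Zf P.le B k q₀ := ⟨(hℓ x).cpt q₀ hxW c hcl, ((hℓ x).mem c hcx).2⟩
    apply hx0
    rw [lemD_eq hW hμ hcx, sub_eq_zero]
    conv_lhs => rw [← lemD_id hW hℓ hμ hζ]
    refine Finset.sum_subset (fun q hq => ?_) fun q hq hq' => ?_
    · have hq1 := hW.mem_up.mp hq
      refine Finset.mem_erase.mpr ⟨?_, hW.mem_up.mpr ((h1 q ((hW q).2.2 hq1)).mpr hq1)⟩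
      rintro rfl
      exact hne (P.pord.anti _ _ ((hW q).2.2 hq1) hle)
    · obtain ⟨hqx, hq⟩ := Finset.mem_erase.mp hq
      have hq1 := hW.mem_up.mp hq
      have hlt := P.rs.lt q x ((hW q).2.2 hq1) hqx.symm
      rw [Finsupp.linearCombination_apply]
      refine Finset.sum_eq_zero fun d hd => ?_
      have : μ q d = 0 := by
        by_contra hd0
        have h3 := h2 q ⟨by omega, d, P.lemD_supp hζ hd, hd0⟩ ((hW q).2.2 hq1)
        exact hq' (hW.mem_up.mpr ((h1 q h3).mp hq1))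
      simp [this]

include hℓ hμ in
theorem lemD_finite (c : List Ω) : {x | μ x c ≠ 0}.Finite := by
  refine ((Set.finite_Iio P.H).biUnion fun j _ =>
    lemD_level hW hℓ hμ P.H j (by omega) c).subset fun x hx => ?_
  exact mem_iUnion₂.mpr ⟨P.rk x, P.rs.bd x, rfl, hx⟩

end Fix

end PS

variable [CompactSpace Ω] [T2Space Ω] [TotallyDisconnectedSpace Ω]

theorem PS.lemD (P : PS Ω) (B : Set Ω) (k : ℕ) {W : Ω → Set Ω} (hW : P.Shr W)
    (ℓ : Ω → List Ω → FL Ω) (C : ℝ) (hℓ : ∀ x, Good P.le B k x {q | x ∈ W q} (ℓ x))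
    (hC : ∀ x c c', ‖ℓ x c c'‖ ≤ C) :
    ∃ ρ : (P.PK B k).carrier →L[ℂ] (P.ZK B k).carrier, Mr (P.PK B k) (P.ZK B k) ρ ∧
      ∀ z, ρ (P.jK B k z) = z := by
  classical
  obtain ⟨μ, M, hM0, hmem, hM, hμ⟩ := P.lemD_exists B k hW ℓ C hℓ hC
  have hfin := PS.lemD_finite hW hℓ hμ
  choose u hu1 _ hu3 using fun q c =>
    P.exists_const B k (hW q).1 (hW q).2.2 (μ q c)
  let y : List Ω → (P.ZK B k).carrier := fun c =>
    ⟨∑ q ∈ (hfin c).toFinset, u q c, Submodule.sum_mem _ fun q _ => hu3 q c (hmem q c)⟩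
  have hy : ∀ c d x, (y c).1 d x = ∑ q ∈ hW.up x, μ q c d := by
    intro c d x
    simp only [y, Linf.sum_val, ContinuousMap.coe_sum, Finset.sum_apply, hu1]
    have hA : ∑ q ∈ (hfin c).toFinset, ind (W q) x * μ q c d =
        ∑ q ∈ (hfin c).toFinset ∪ hW.up x, ind (W q) x * μ q c d :=
      Finset.sum_subset Finset.subset_union_left fun q _ hq => by
        have : μ q c = 0 := by simpa using hq
        simp [this]
    have hB : ∑ q ∈ hW.up x, ind (W q) x * μ q c d =
        ∑ q ∈ (hfin c).toFinset ∪ hW.up x, ind (W q) x * μ q c d :=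
      Finset.sum_subset Finset.subset_union_right fun q _ hq => by
        rw [ind_of_notMem fun h => hq (hW.mem_up.mpr h), zero_mul]
    rw [hA, ← hB]
    exact Finset.sum_congr rfl fun q hq => by
      rw [ind_of_mem (hW q).1 (hW.mem_up.mp hq), one_mul]
  have hy0 : ∀ c d x, x ∉ P.Uc B k c → (y c).1 d x = 0 := by
    intro c d x hx
    rw [hy]
    refine Finset.sum_eq_zero fun q hq => ?_
    rw [PS.lemD_zero hW hμ fun hc => hx (Sx_mono P.pord ((hW q).2.2 (hW.mem_up.mp hq)) hc)]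
    rfl
  have hyb : ∀ c d x, ‖(y c).1 d x‖ ≤ P.N * M := by
    intro c d x
    rw [hy]
    refine (norm_sum_le _ _).trans ((Finset.sum_le_card_nsmul _ _ M fun q _ => hM q c d).trans ?_)
    rw [nsmul_eq_mul]
    exact mul_le_mul_of_nonneg_right (by exact_mod_cast hW.card_up x) hM0
  obtain ⟨ρ, hρ, hρe⟩ := PM.lift (P.cf B k) (P.ZK B k) y (fun c => by
      refine Subtype.ext (Linf.ext fun d => ContinuousMap.ext fun x => ?_)
      change ind (P.Uc B k c) x * (y c).1 d x = (y c).1 d x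
      by_cases hx : x ∈ P.Uc B k c
      · rw [ind_of_mem ((P.cf B k).clopen c) hx, one_mul]
      · rw [hy0 c d x hx, mul_zero])
    (((P.N ^ (k + 1) : ℕ) : ℝ) * (P.N * M)) (fun S θ hθ => by
      have := norm_sum_le_of_cf (P.cf B k) (fun c => (y c).1) hy0 (by positivity) hyb S θ hθ
      refine le_of_eq_of_le ?_ this
      rw [Submodule.coe_norm, Submodule.coe_sum]
      rfl)
  refine ⟨ρ, hρ, fun z => Subtype.ext (Linf.ext fun d => ContinuousMap.ext fun x => ?_)⟩
  have hz := P.mem_zS.mp z.2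
  have hf := PM.fibre (P.cf B k) ((P.zS B k).subtypeL.comp ρ)
    (fun a v => congrArg Subtype.val (hρ a v)) (P.jK B k z) x (P.finite_Sx B k x).toFinset
    (fun c hc => (Set.Finite.mem_toFinset _).mpr hc) d
  change (ρ (P.jK B k z)).1 d x = ∑ c ∈ _, z.1 c x * (ρ (eP _ c)).1 d x at hf
  rw [hf]
  simp only [hρe, hy, Finset.mul_sum]
  rw [Finset.sum_comm]
  have h1 := DFunLike.congr_fun (PS.lemD_id hW hℓ hμ (hz.2 x)) d
  have h2 : P.fib B k x z.1 d = z.1 d x := by
    rw [P.fib_apply]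
    split_ifs with hd
    · rfl
    · exact ((mem_pmS.mp hz.1).2 d x hd).symm
  rw [← h2, ← h1, Finsupp.finsetSum_apply]
  refine Finset.sum_congr rfl fun q _ => ?_
  simp only [PS.fib, LinearMap.sum_apply, LinearMap.comp_apply, Finsupp.lsingle_apply, map_sum,
    Finsupp.linearCombination_single, Finsupp.finsetSum_apply, Finsupp.smul_apply, smul_eq_mul]
  rfl

end Pool.Agent.MP_75da70_an.H8
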